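import Pool.Agent.H64.GW.Nil.Link

/-!
# The cubic form on the second cohomology of the nilmanifold
-/

open scoped ContDiff
open MeasureTheory

namespace Pool.Agent.H64.GW.Nil

/-- the constant coefficient cocycle with given `c 0 k`, `c 1 2`, `c 2 3` -/
def coc (u : ℕ → ℂ) (y z : ℂ) (i j : ℕ) : ℂ :=
  if i = 0 ∧ 1 ≤ j ∧ j ≤ 5 then u j
  else if j = 0 ∧ 1 ≤ i ∧ i ≤ 5 then -u i
  else if i = 1 ∧ j = 2 then y
  else if i = 2 ∧ j = 1 then -y
  else if i = 2 ∧ j = 3 then z
  else if i = 3 ∧ j = 2 then -z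
  else if i = 1 ∧ j = 4 then -z
  else if i = 4 ∧ j = 1 then z
  else 0

theorem coc_zero (u : ℕ → ℂ) (y z : ℂ) (i j : ℕ) (hj : 6 ≤ j) : coc u y z i j = 0 := by
  have h1 : ¬(i = 0 ∧ 1 ≤ j ∧ j ≤ 5) := by omega
  have h2 : ¬(j = 0 ∧ 1 ≤ i ∧ i ≤ 5) := by omega
  have h3 : j ≠ 1 := by omega
  have h4 : j ≠ 2 := by omega
  have h5 : j ≠ 3 := by omega
  have h6 : j ≠ 4 := by omega
  simp only [coc, if_neg h1, if_neg h2, h3, h4, h5, h6, and_false, if_false]

theorem coc_zero' (u : ℕ → ℂ) (y z : ℂ) (i j : ℕ) (hi : 6 ≤ i) : coc u y z i j = 0 := by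
  have h1 : ¬(i = 0 ∧ 1 ≤ j ∧ j ≤ 5) := by omega
  have h2 : ¬(j = 0 ∧ 1 ≤ i ∧ i ≤ 5) := by omega
  have h3 : i ≠ 1 := by omega
  have h4 : i ≠ 2 := by omega
  have h5 : i ≠ 3 := by omega
  have h6 : i ≠ 4 := by omega
  simp only [coc, if_neg h1, if_neg h2, h3, h4, h5, h6, false_and, if_false]

theorem coc_anti (u : ℕ → ℂ) (y z : ℂ) (i j : ℕ) : coc u y z i j = -coc u y z j i := by
  by_cases hj : 6 ≤ j
  · rw [coc_zero _ _ _ _ _ hj, coc_zero' _ _ _ _ _ hj, neg_zero]
  by_cases hi : 6 ≤ i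
  · rw [coc_zero _ _ _ _ _ hi, coc_zero' _ _ _ _ _ hi, neg_zero]
  have hj5 : j ≤ 5 := by omega
  have hi5 : i ≤ 5 := by omega
  interval_cases i <;> interval_cases j <;> simp [coc]

theorem coc_closed (u : ℕ → ℂ) (y z : ℂ) (j k : ℕ) (hj : 1 ≤ j) (hk : 1 ≤ k) :
    coc u y z (j + 1) k + coc u y z j (k + 1) = 0 := by
  by_cases hk6 : 6 ≤ k
  · rw [coc_zero _ _ _ _ _ hk6, coc_zero _ _ _ _ _ (by omega : 6 ≤ k + 1), add_zero]
  by_cases hj6 : 6 ≤ j
  · rw [coc_zero' _ _ _ _ _ hj6, coc_zero' _ _ _ _ _ (by omega : 6 ≤ j + 1), add_zero]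
  have hk5 : k ≤ 5 := by omega
  have hj5 : j ≤ 5 := by omega
  interval_cases j <;> interval_cases k <;> simp [coc]

theorem coc_ext {c : ℕ → ℕ → ℂ} (hanti : ∀ i j, c i j = -c j i) (hz : ∀ i j, 6 ≤ j → c i j = 0)
    (hc : ∀ j k, 1 ≤ j → 1 ≤ k → c (j + 1) k + c j (k + 1) = 0) (i j : ℕ) :
    c i j = coc (c 0) (c 1 2) (c 2 3) i j := by
  have hd : ∀ i, c i i = 0 := fun i => by
    have := hanti i i
    exact self_eq_neg.1 this
  have h45 : c 4 5 = 0 := by
    have := hc 3 5 (by norm_num) (by norm_num)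
    rw [hz 3 6 le_rfl, add_zero] at this
    exact this
  have h35 : c 3 5 = 0 := by
    have := hc 2 5 (by norm_num) (by norm_num)
    rw [hz 2 6 le_rfl, add_zero] at this
    exact this
  have h25 : c 2 5 = 0 := by
    have := hc 1 5 (by norm_num) (by norm_num)
    rw [hz 1 6 le_rfl, add_zero] at this
    exact this
  have h34 : c 3 4 = 0 := by
    have := hc 2 4 (by norm_num) (by norm_num)
    rw [h25, add_zero] at this
    exact this
  have h24 : c 2 4 = 0 := by
    have := hc 2 3 (by norm_num) (by norm_num)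
    rw [hd, zero_add] at this
    exact this
  have h15 : c 1 5 = 0 := by
    have := hc 1 4 (by norm_num) (by norm_num)
    rw [h24, zero_add] at this
    exact this
  have h13 : c 1 3 = 0 := by
    have := hc 1 2 (by norm_num) (by norm_num)
    rw [hd, zero_add] at this
    exact this
  have h14 : c 1 4 = -c 2 3 := by
    have := hc 1 3 (by norm_num) (by norm_num)
    rw [add_comm] at this
    exact eq_neg_of_add_eq_zero_left this
  -- the upper triangle
  have key : ∀ i j, i < j → c i j = coc (c 0) (c 1 2) (c 2 3) i j := by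
    intro i j hij
    by_cases hj : 6 ≤ j
    · rw [hz i j hj, coc_zero _ _ _ _ _ hj]
    · have hj5 : j ≤ 5 := by omega
      interval_cases j <;> interval_cases i <;>
        simp [coc, h45, h35, h25, h34, h24, h15, h13, h14]
  rcases lt_trichotomy i j with h | h | h
  · exact key i j h
  · subst h
    rw [hd]
    have := coc_anti (c 0) (c 1 2) (c 2 3) i i
    exact (self_eq_neg.1 this).symm
  · rw [hanti i j, key j i h, ← coc_anti]

section

variable {T : Type} [AddCommGroup T] [Module ℂ T] {q : Z2 →ₗ[ℂ] T}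

/-- every class is represented by a constant coefficient form -/
theorem exists_rep (hq : IsH2 q) (α : Z2) : ∃ (u : ℕ → ℂ) (y z : ℂ) (α' : Z2),
    (∀ i j x, α'.1 x ![X i x, X j x] = coc u y z i j) ∧ q α' = q α := by
  obtain ⟨c, b, hb, hbz, h1, h2, h3, h4⟩ := nomizu (coef_closed α.2)
  obtain ⟨β, hβ, hβb⟩ := exists_form_one b hb hbz
  obtain ⟨α', hα', hα'c⟩ := exists_form_two c h1 h2 h3
  refine ⟨c 0, c 1 2, c 2 3, ⟨α', hα'⟩, fun i j x => ?_, ?_⟩
  · rw [hα'c, coc_ext h1 h2 h3 i j]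
  · rw [eq_comm, ← sub_eq_zero, ← map_sub, hq.ker]
    refine ⟨β, hβ, ?_⟩
    funext x
    apply form_two_ext
    intro i j
    have h5 := h4 i j x
    have h6 : (fun i x => β x ![X i x]) = b := by
      funext i x
      exact hβb i x
    rw [coef_extDeriv hβ, h6]
    show dd b i j x = (α.1 - α') x ![X i x, X j x]
    rw [Pi.sub_apply]
    show dd b i j x = α.1 x ![X i x, X j x] - α' x ![X i x, X j x]
    rw [h5, hα'c]
    ring

theorem integral_congr (hq : IsH2 q) {α α' β γ : Z2} (h : q α = q α') :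
    integral α.1 β.1 γ.1 = integral α'.1 β.1 γ.1 := by
  rw [← sub_eq_zero, ← map_sub, hq.ker] at h
  obtain ⟨η, hη, hη'⟩ := h
  have h1 : α.1 = extDeriv η + α'.1 := by
    rw [hη']
    show α.1 = (α.1 - α'.1) + α'.1
    rw [sub_add_cancel]
  rw [h1, integral_add (extDeriv_mem hη).1 α'.2.1 β.2.1 γ.2.1, integral_exact hη β.2 γ.2,
    zero_add]

theorem integral_congr₃ (hq : IsH2 q) {α α' β β' γ γ' : Z2} (h1 : q α = q α') (h2 : q β = q β')
    (h3 : q γ = q γ') : integral α.1 β.1 γ.1 = integral α'.1 β'.1 γ'.1 := by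
  rw [integral_congr hq h1, integral_symm₁, integral_congr hq h2, integral_symm₂,
    integral_symm₁, integral_congr hq h3, integral_symm₁, integral_symm₂, integral_symm₁]

/-- the constant coefficient form with the given coefficients, as a closed form -/
theorem exists_coc (u : ℕ → ℂ) (y z : ℂ) : ∃ α : Z2, ∀ i j x,
    α.1 x ![X i x, X j x] = coc u y z i j := by
  obtain ⟨α, h1, h2⟩ := exists_form_two (coc u y z) (coc_anti u y z) (coc_zero u y z)
    (coc_closed u y z)
  exact ⟨⟨α, h1⟩, h2⟩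

theorem integral_coc {α β γ : Z2} {u u' u'' : ℕ → ℂ} {y y' y'' z z' z'' : ℂ}
    (ha : ∀ i j x, α.1 x ![X i x, X j x] = coc u y z i j)
    (hb : ∀ i j x, β.1 x ![X i x, X j x] = coc u' y' z' i j)
    (hc : ∀ i j x, γ.1 x ![X i x, X j x] = coc u'' y'' z'' i j) :
    integral α.1 β.1 γ.1 = -2 * (u 5 * z' * z'' + z * u' 5 * z'' + z * z' * u'' 5) := by
  rw [integral_const α.2 β.2 γ.2 ha hb hc]
  simp [coc]

theorem const_mem_Fn (c : ℂ) : (fun _ : G => c) ∈ Fn := ⟨contDiff_const, fun _ _ _ => rfl⟩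

theorem D_const (k : ℕ) (c : ℂ) (x : G) : D k (fun _ => c) x = 0 := by
  simp [D]

theorem volume_cube : (volume : Measure G).real (Set.Icc 0 1) = 1 := by
  simp [Measure.real, Real.volume_Icc_pi]

theorem X_continuous (k : ℕ) : Continuous (X k) := by
  apply continuous_pi
  intro j
  unfold X
  split_ifs
  · exact continuous_const
  · exact continuous_const
  · fun_prop
  · exact continuous_const

theorem D_continuous {f : G → ℂ} (hf : f ∈ Fn) (k : ℕ) : Continuous (D k f) := by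
  have h1 : Continuous (fderiv ℝ f) := hf.1.continuous_fderiv (by simp)
  exact h1.clm_apply (X_continuous k)

/-- A constant coefficient form with `c 0 5 = c 1 2 = c 2 3 = 0` is exact. -/
theorem isExact_coc {α : Form 2} {u : ℕ → ℂ} (hu : u 5 = 0)
    (hα : ∀ i j x, α x ![X i x, X j x] = coc u 0 0 i j) : IsExact α := by
  set b : ℕ → G → ℂ := fun i _ => if 2 ≤ i ∧ i ≤ 5 then u (i - 1) else 0 with hb
  have hbF : ∀ i, b i ∈ Fn := fun i => const_mem_Fn _
  have hbz : ∀ i, 6 ≤ i → b i = 0 := by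
    intro i hi
    funext x
    simp only [hb]
    rw [if_neg (by omega)]
    rfl
  obtain ⟨β, hβ, hβb⟩ := exists_form_one b hbF hbz
  refine ⟨β, hβ, ?_⟩
  funext x
  apply form_two_ext
  intro i j
  have h6 : (fun i x => β x ![X i x]) = b := by
    funext i x
    exact hβb i x
  rw [coef_extDeriv hβ, h6, hα]
  unfold dd
  have hD : ∀ i j, D i (b j) x = 0 := fun i j => D_const i _ x
  rw [hD, hD]
  by_cases hj : 6 ≤ j
  · rw [coc_zero _ _ _ _ _ hj, hbz (j + 1) (by omega)]
    have hj0 : ¬(j = 0 ∧ 1 ≤ i) := by omega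
    rw [if_neg hj0]
    simp
  by_cases hi : 6 ≤ i
  · rw [coc_zero' _ _ _ _ _ hi, hbz (i + 1) (by omega)]
    have hi0 : ¬(i = 0 ∧ 1 ≤ j) := by omega
    rw [if_neg hi0]
    simp
  have hj5 : j ≤ 5 := by omega
  have hi5 : i ≤ 5 := by omega
  interval_cases i <;> interval_cases j <;> simp [coc, hb, hu]

/-- The cubic form on the second cohomology of `V`: it is symmetric and not zero, and its
annihilator is a line. -/
theorem cubic (hq : IsH2 q) {C : T →ₗ[ℂ] T →ₗ[ℂ] Module.Dual ℂ T}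
    (hC : ∀ α β γ : Z2, C (q α) (q β) (q γ) = integral α.1 β.1 γ.1) :
    (∀ x y z, C x y z = C y x z) ∧ (∀ x y z, C x y z = C x z y) ∧ (∃ y, C y y ≠ 0) ∧
    ∃ r : T, r ≠ 0 ∧ C r = 0 ∧ ∀ w, C w = 0 → ∃ c : ℂ, w = c • r := by
  obtain ⟨φ0, h0⟩ := exists_coc (fun k => if k = 5 then 1 else 0) 0 0
  obtain ⟨φ1, h1⟩ := exists_coc 0 1 0
  obtain ⟨φ2, h2⟩ := exists_coc 0 0 1
  refine ⟨?_, ?_, ⟨q φ2, ?_⟩, q φ1, ?_, ?_, ?_⟩
  · intro x y z
    obtain ⟨α, rfl⟩ := hq.surjective x
    obtain ⟨β, rfl⟩ := hq.surjective y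
    obtain ⟨γ, rfl⟩ := hq.surjective z
    rw [hC, hC, integral_symm₁]
  · intro x y z
    obtain ⟨α, rfl⟩ := hq.surjective x
    obtain ⟨β, rfl⟩ := hq.surjective y
    obtain ⟨γ, rfl⟩ := hq.surjective z
    rw [hC, hC, integral_symm₂]
  · intro h
    have h3 := hC φ2 φ2 φ0
    rw [h, integral_coc h2 h2 h0] at h3
    simp at h3
  · intro h
    rw [hq.ker] at h
    obtain ⟨β, hβ, hβ'⟩ := h
    have h3 : ∀ x, D 1 (fun x => β x ![X 2 x]) x - D 2 (fun x => β x ![X 1 x]) x = 1 := by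
      intro x
      have h4 := coef_extDeriv hβ 1 2 x
      rw [hβ', h1] at h4
      simp [dd, coc] at h4
      exact h4.symm
    have h5 := integral_D (coef_one hβ 2) 1
    have h6 := integral_D (coef_one hβ 1) 2
    have h7 : ∀ x, D 1 (fun x => β x ![X 2 x]) x = D 2 (fun x => β x ![X 1 x]) x + 1 := by
      intro x
      rw [← h3 x]
      ring
    have hcont : Continuous (fun x => D 2 (fun x => β x ![X 1 x]) x) :=
      D_continuous (coef_one hβ 1) 2
    simp only [h7] at h5
    rw [MeasureTheory.integral_add (hcont.integrableOn_Icc) (continuous_const.integrableOn_Icc),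
      h6] at h5
    simp [volume_cube] at h5
  · apply LinearMap.ext
    intro x
    apply LinearMap.ext
    intro y
    obtain ⟨α, rfl⟩ := hq.surjective x
    obtain ⟨β, rfl⟩ := hq.surjective y
    obtain ⟨u, y, z, α', h3, h4⟩ := exists_rep hq α
    obtain ⟨u', y', z', β', h5, h6⟩ := exists_rep hq β
    rw [← h4, ← h6, hC, integral_coc h1 h3 h5]
    simp
  · intro w hw
    obtain ⟨α, rfl⟩ := hq.surjective w
    obtain ⟨u, y, z, α', h3, h4⟩ := exists_rep hq α
    rw [← h4] at hw ⊢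
    have h5 := hC α' φ2 φ2
    have h6 := hC α' φ0 φ2
    rw [hw, integral_coc h3 h2 h2] at h5
    rw [hw, integral_coc h3 h0 h2] at h6
    simp at h5 h6
    refine ⟨y, ?_⟩
    rw [← sub_eq_zero, ← map_smul, ← map_sub, hq.ker]
    refine isExact_coc (u := u) h5 (fun i j x => ?_)
    show (α'.1 - y • φ1.1) x ![X i x, X j x] = _
    rw [Pi.sub_apply, Pi.smul_apply]
    show α'.1 x ![X i x, X j x] - y • φ1.1 x ![X i x, X j x] = _
    rw [h3, h1]
    unfold coc
    split_ifs <;> simp [h6]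

end

/-! ### An explicit model of the second cohomology -/

theorem coef_continuous {α : Form 2} (hα : α ∈ Z2) (i j : ℕ) :
    Continuous (fun x => α x ![X i x, X j x]) :=
  ((coef_closed hα).mem i j).1.continuous

/-- The periods of a closed two-form. -/
noncomputable def per (i j : ℕ) : Z2 →ₗ[ℂ] ℂ where
  toFun α := ∫ x in Set.Icc (0 : G) 1, α.1 x ![X i x, X j x]
  map_add' α β := by
    rw [← MeasureTheory.integral_add (coef_continuous α.2 i j).integrableOn_Icc
      (coef_continuous β.2 i j).integrableOn_Icc]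
    rfl
  map_smul' c α := by
    rw [RingHom.id_apply, smul_eq_mul, ← integral_const_mul]
    rfl

/-- The class of a closed two-form. -/
noncomputable def cls : Z2 →ₗ[ℂ] (Fin 3 → ℂ) :=
  LinearMap.pi ![per 0 5, per 1 2, per 2 3]

theorem cls_of_const {α : Z2} {u : ℕ → ℂ} {y z : ℂ}
    (h : ∀ i j x, α.1 x ![X i x, X j x] = coc u y z i j) : cls α = ![u 5, y, z] := by
  have h1 : ∀ i j, per i j α = coc u y z i j := by
    intro i j
    show ∫ x in Set.Icc (0 : G) 1, α.1 x ![X i x, X j x] = _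
    simp [h, volume_cube]
  funext k
  fin_cases k
  · show per 0 5 α = _
    rw [h1]
    simp [coc]
  · show per 1 2 α = _
    rw [h1]
    simp [coc]
  · show per 2 3 α = _
    rw [h1]
    simp [coc]

theorem per_exact {β : Form 1} (hβ : β ∈ Ω 1) (i j : ℕ)
    (h : ∀ x, (if i = 0 ∧ 1 ≤ j then β x ![X (j + 1) x] else 0)
    - (if j = 0 ∧ 1 ≤ i then β x ![X (i + 1) x] else 0) = 0) :
    per i j ⟨extDeriv β, extDeriv_mem hβ⟩ = 0 := by
  show ∫ x in Set.Icc (0 : G) 1, extDeriv β x ![X i x, X j x] = 0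
  have h1 : ∀ x, extDeriv β x ![X i x, X j x] = D i (fun x => β x ![X j x]) x
      - D j (fun x => β x ![X i x]) x := by
    intro x
    rw [coef_extDeriv hβ, dd, add_sub_assoc, h, add_zero]
  simp only [h1]
  rw [MeasureTheory.integral_sub (D_continuous (coef_one hβ j) i).integrableOn_Icc
    (D_continuous (coef_one hβ i) j).integrableOn_Icc, integral_D (coef_one hβ j),
    integral_D (coef_one hβ i), sub_zero]

theorem cls_exact {β : Form 1} (hβ : β ∈ Ω 1) : cls ⟨extDeriv β, extDeriv_mem hβ⟩ = 0 := by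
  have h6 : ∀ x, β x ![X 6 x] = 0 := by
    intro x
    have : X 6 x = 0 := by
      funext j
      have : (j : ℕ) < 6 := j.2
      simp [X]
    rw [this]
    exact (β x).map_coord_zero 0 rfl
  funext k
  fin_cases k
  · exact per_exact hβ 0 5 (fun x => by simp [h6])
  · exact per_exact hβ 1 2 (fun x => by simp)
  · exact per_exact hβ 2 3 (fun x => by simp)

theorem isH2_cls : IsH2 cls := by
  constructor
  · intro v
    obtain ⟨α, hα⟩ := exists_coc (fun k => if k = 5 then v 0 else 0) (v 1) (v 2)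
    refine ⟨α, ?_⟩
    rw [cls_of_const hα]
    funext k
    fin_cases k <;> simp
  · intro α
    constructor
    · intro h
      obtain ⟨c, b, hb, hbz, h1, h2, h3, h4⟩ := nomizu (coef_closed α.2)
      obtain ⟨β, hβ, hβb⟩ := exists_form_one b hb hbz
      have h6 : (fun i x => β x ![X i x]) = b := by
        funext i x
        exact hβb i x
      set α' : Z2 := α - ⟨extDeriv β, extDeriv_mem hβ⟩ with hα'
      have h7 : ∀ i j x, α'.1 x ![X i x, X j x] = coc (c 0) (c 1 2) (c 2 3) i j := by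
        intro i j x
        show α.1 x ![X i x, X j x] - extDeriv β x ![X i x, X j x] = _
        rw [coef_extDeriv hβ, h6, ← coc_ext h1 h2 h3, h4 i j x]
        ring
      have h8 := cls_of_const h7
      rw [hα', LinearMap.map_sub cls α ⟨extDeriv β, extDeriv_mem hβ⟩, h, cls_exact hβ,
        sub_zero] at h8
      have h9 : c 0 5 = 0 := (congrFun h8 0).symm
      have h10 : c 1 2 = 0 := (congrFun h8 1).symm
      have h11 : c 2 3 = 0 := (congrFun h8 2).symm
      rw [h10, h11] at h7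
      obtain ⟨β', hβ', h12⟩ := isExact_coc h9 h7
      refine ⟨β + β', Submodule.add_mem _ hβ hβ', ?_⟩
      funext x
      rw [extDeriv_add ((hβ.1.differentiable (by simp)).differentiableAt)
        ((hβ'.1.differentiable (by simp)).differentiableAt), h12, hα']
      show extDeriv β x + (α.1 x - extDeriv β x) = α.1 x
      rw [add_sub_cancel]
    · rintro ⟨β, hβ, h⟩
      have : α = ⟨extDeriv β, extDeriv_mem hβ⟩ := Subtype.ext h.symm
      rw [this, cls_exact hβ]

/-- The cubic form in the coordinates of the explicit model. -/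
noncomputable def cub : (Fin 3 → ℂ) →ₗ[ℂ] (Fin 3 → ℂ) →ₗ[ℂ] Module.Dual ℂ (Fin 3 → ℂ) :=
  LinearMap.mk₂ ℂ (fun x y => (-2 * x 0 * y 2 - 2 * x 2 * y 0) • LinearMap.proj 2
      + (-2 * x 2 * y 2) • LinearMap.proj 0)
    (by intro x x' y; ext z; simp; ring) (by intro c x y; ext z; simp; ring)
    (by intro x y y'; ext z; simp; ring) (by intro c x y; ext z; simp; ring)

theorem cub_apply (x y z : Fin 3 → ℂ) : cub x y z =
    -2 * (x 0 * y 2 * z 2 + x 2 * y 0 * z 2 + x 2 * y 2 * z 0) := by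
  simp only [cub, LinearMap.mk₂_apply, LinearMap.add_apply, LinearMap.smul_apply,
    LinearMap.proj_apply, smul_eq_mul]
  ring

theorem cub_cls (α β γ : Z2) : cub (cls α) (cls β) (cls γ) = integral α.1 β.1 γ.1 := by
  obtain ⟨u, y, z, α', h1, h2⟩ := exists_rep isH2_cls α
  obtain ⟨u', y', z', β', h3, h4⟩ := exists_rep isH2_cls β
  obtain ⟨u'', y'', z'', γ', h5, h6⟩ := exists_rep isH2_cls γ
  rw [← integral_congr₃ isH2_cls h2 h4 h6, ← h2, ← h4, ← h6, integral_coc h1 h3 h5,
    cls_of_const h1, cls_of_const h3, cls_of_const h5, cub_apply]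
  simp

/-- The cubic form on the second cohomology exists and is unique. -/
theorem existsUnique_cubic {T : Type} [AddCommGroup T] [Module ℂ T] {q : Z2 →ₗ[ℂ] T}
    (hq : IsH2 q) : ∃! C : T →ₗ[ℂ] T →ₗ[ℂ] Module.Dual ℂ T,
      ∀ α β γ : Z2, C (q α) (q β) (q γ) = integral α.1 β.1 γ.1 := by
  obtain ⟨s, hs⟩ := q.exists_rightInverse_of_surjective (LinearMap.range_eq_top.2 hq.surjective)
  have hs' : ∀ x, q (s x) = x := fun x => LinearMap.congr_fun hs x
  set e : T →ₗ[ℂ] (Fin 3 → ℂ) := cls.comp s with he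
  have hkey : ∀ α, e (q α) = cls α := by
    intro α
    show cls (s (q α)) = cls α
    have h1 : cls (s (q α) - α) = cls (s (q α)) - cls α := map_sub cls _ _
    have h2 : q (s (q α) - α) = q (s (q α)) - q α := map_sub q _ _
    rw [← sub_eq_zero, ← h1, isH2_cls.ker, ← hq.ker, h2, hs', sub_self]
  refine ⟨(cub.compl₁₂ e e).compr₂ e.dualMap, fun α β γ => ?_, fun C hC => ?_⟩
  · show cub (e (q α)) (e (q β)) (e (q γ)) = _
    rw [hkey, hkey, hkey, cub_cls]
  · apply LinearMap.ext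
    intro x
    apply LinearMap.ext
    intro y
    apply LinearMap.ext
    intro z
    obtain ⟨α, rfl⟩ := hq.surjective x
    obtain ⟨β, rfl⟩ := hq.surjective y
    obtain ⟨γ, rfl⟩ := hq.surjective z
    rw [hC]
    show _ = cub (e (q α)) (e (q β)) (e (q γ))
    rw [hkey, hkey, hkey, cub_cls]

end Pool.Agent.H64.GW.Nil
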