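import Mathlib

/-!
# A six-dimensional symplectic nilmanifold and its de Rham cohomology in degree two

`V = Γ \ G` where `G` is the simply connected nilpotent Lie group whose left invariant one-forms
`e⁰, …, e⁵` satisfy `de⁰ = de¹ = 0` and `deᵏ⁺¹ = e⁰ ∧ eᵏ` for `k = 1, …, 4`, and `Γ` is a
cocompact lattice in `G`. As a manifold, `G = ℝ⁶`.
-/

open scoped ContDiff
open MeasureTheory

namespace Pool.Agent.H64.GW.Nil

/-- The manifold underlying the group `G`; the first coordinate is called `t`, the others are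
called `x₁, …, x₅`. -/
abbrev G : Type := Fin 6 → ℝ

/-- The group law of `G`: with the nilpotent shift `N x = (0, x₁, x₂, x₃, x₄)` it is
`(s, a) (t, x) = (s + t, a + exp (- s N) x)`. -/
noncomputable def mul (g h : G) : G :=
  ![g 0 + h 0, g 1 + h 1, g 2 + (h 2 - g 0 * h 1),
    g 3 + (h 3 - g 0 * h 2 + g 0 ^ 2 / 2 * h 1),
    g 4 + (h 4 - g 0 * h 3 + g 0 ^ 2 / 2 * h 2 - g 0 ^ 3 / 6 * h 1),
    g 5 + (h 5 - g 0 * h 4 + g 0 ^ 2 / 2 * h 3 - g 0 ^ 3 / 6 * h 2 + g 0 ^ 4 / 24 * h 1)]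

/-- The lattice `Γ` in `G`: the elements `(s, a)` with `s ∈ ℤ` for which the polynomial
`a₁ X⁴ / 4! + a₂ X³ / 3! + a₃ X² / 2! + a₄ X + a₅` takes integer values at all integers. -/
def Lat : Set G :=
  {g | (∃ n : ℤ, g 0 = n) ∧ ∀ m : ℤ, ∃ n : ℤ,
    g 1 * m ^ 4 / 24 + g 2 * m ^ 3 / 6 + g 3 * m ^ 2 / 2 + g 4 * m + g 5 = n}

/-- Complex-valued differential forms of degree `k` on `G`. -/
abbrev Form (k : ℕ) : Type := G → G [⋀^Fin k]→L[ℝ] ℂ

/-- The smooth complex-valued differential forms of degree `k` on `V = Γ \ G`, that is, the smooth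
forms on `G` which are invariant under left translation by the elements of `Γ`. -/
def Ω (k : ℕ) : Submodule ℂ (Form k) where
  carrier := {α | ContDiff ℝ ∞ α ∧ ∀ γ ∈ Lat, ∀ x,
    (α (mul γ x)).compContinuousLinearMap (fderiv ℝ (mul γ) x) = α x}
  add_mem' := by
    rintro α β ⟨h1, h2⟩ ⟨k1, k2⟩
    refine ⟨h1.add k1, fun γ hγ x => ?_⟩
    rw [Pi.add_apply, Pi.add_apply, ← h2 γ hγ x, ← k2 γ hγ x]
    ext v
    rfl
  zero_mem' := by
    refine ⟨contDiff_const, fun γ hγ x => ?_⟩
    ext v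
    rfl
  smul_mem' := by
    rintro c α ⟨h1, h2⟩
    refine ⟨h1.const_smul c, fun γ hγ x => ?_⟩
    rw [Pi.smul_apply, Pi.smul_apply, ← h2 γ hγ x]
    ext v
    rfl

/-- The closed two-forms on `V`. -/
def Z2 : Submodule ℂ (Form 2) where
  carrier := {α | α ∈ Ω 2 ∧ extDeriv α = 0}
  add_mem' := by
    rintro α β ⟨h1, h2⟩ ⟨k1, k2⟩
    refine ⟨Submodule.add_mem _ h1 k1, ?_⟩
    funext x
    rw [extDeriv_add ((h1.1.differentiable (by simp)).differentiableAt)
      ((k1.1.differentiable (by simp)).differentiableAt), h2, k2]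
    simp
  zero_mem' := by
    refine ⟨Submodule.zero_mem _, ?_⟩
    funext x
    have h := extDeriv_smul (𝕜 := ℝ) (x := x) 0 (0 : Form 2)
    rw [smul_zero, zero_smul] at h
    exact h
  smul_mem' := by
    rintro c α ⟨h1, h2⟩
    refine ⟨Submodule.smul_mem _ c h1, ?_⟩
    funext x
    have hd := (h1.1.differentiable (by simp)) x
    have h := congrFun h2 x
    rw [extDeriv] at h ⊢
    rw [fderiv_const_smul hd, ContinuousAlternatingMap.alternatizeUncurryFin_smul, h]
    exact smul_zero c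

/-- The exact two-forms on `V`. -/
def IsExact (α : Form 2) : Prop := ∃ β ∈ Ω 1, extDeriv β = α

/-- The vector space `T` together with the linear map `q` is the second de Rham cohomology of `V`
with complex coefficients: `q` identifies `T` with the closed forms modulo the exact ones. -/
structure IsH2 {T : Type} [AddCommGroup T] [Module ℂ T] (q : Z2 →ₗ[ℂ] T) : Prop where
  surjective : Function.Surjective q
  ker : ∀ α : Z2, q α = 0 ↔ IsExact α.1

/-- The wedge product of three two-forms, evaluated on the standard basis of `ℝ⁶`. -/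
noncomputable def wedge (α β γ : G [⋀^Fin 2]→L[ℝ] ℂ) : ℂ :=
  (1 / 8) * ∑ σ : Equiv.Perm (Fin 6), (Equiv.Perm.sign σ : ℂ) *
    α ![Pi.single (σ 0) 1, Pi.single (σ 1) 1] * β ![Pi.single (σ 2) 1, Pi.single (σ 3) 1] *
    γ ![Pi.single (σ 4) 1, Pi.single (σ 5) 1]

/-- The integral of `α ∧ β ∧ γ` over `V`; the unit cube is a fundamental domain of `Γ`. -/
noncomputable def integral (α β γ : Form 2) : ℂ :=
  ∫ x in Set.Icc (0 : G) 1, wedge (α x) (β x) (γ x)

end Pool.Agent.H64.GW.Nil
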