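import Pool.Agent.H64.GW.Nil.Defs

/-!
# The left invariant frame of the nilmanifold
-/

open scoped ContDiff
open MeasureTheory

namespace Pool.Agent.H64.GW.Nil

/-- The left invariant vector fields of `G`, dual to `e⁰, …, e⁵`: `X 0 = ∂ₜ` and
`X k = ∑_{j ≥ k} (-t) ^ (j - k) / (j - k)! ∂ⱼ` for `k = 1, …, 5`; by convention (and by this
formula) `X k = 0` for `6 ≤ k`. -/
noncomputable def X (k : ℕ) (x : G) : G := fun j =>
  if k = 0 then (if j = 0 then 1 else 0)
  else if k ≤ (j : ℕ) then (-x 0) ^ ((j : ℕ) - k) / ((j : ℕ) - k).factorial else 0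

/-- The smooth complex-valued functions on `V = Γ \ G`. -/
def Fn : Submodule ℂ (G → ℂ) where
  carrier := {f | ContDiff ℝ ∞ f ∧ ∀ γ ∈ Lat, ∀ x, f (mul γ x) = f x}
  add_mem' := by
    rintro f g ⟨h1, h2⟩ ⟨k1, k2⟩
    exact ⟨h1.add k1, fun γ hγ x => by rw [Pi.add_apply, Pi.add_apply, h2 γ hγ, k2 γ hγ]⟩
  zero_mem' := ⟨contDiff_const, fun γ hγ x => rfl⟩
  smul_mem' := by
    rintro c f ⟨h1, h2⟩
    exact ⟨h1.const_smul c, fun γ hγ x => by rw [Pi.smul_apply, Pi.smul_apply, h2 γ hγ]⟩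

/-- The derivative along the vector field `X k`. -/
noncomputable def D (k : ℕ) (f : G → ℂ) (x : G) : ℂ := fderiv ℝ f x (X k x)

/-- A closed two-form on `V`, given by its coefficients `a i j` with respect to the frame
(`a i j = α (X i, X j)`). -/
structure Closed (a : ℕ → ℕ → G → ℂ) : Prop where
  mem : ∀ i j, a i j ∈ Fn
  anti : ∀ i j x, a i j x = -a j i x
  zero : ∀ i j, 6 ≤ j → a i j = 0
  closed₀ : ∀ j k, 1 ≤ j → 1 ≤ k → ∀ x, D 0 (a j k) x - D j (a 0 k) x + D k (a 0 j) x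
    + a (j + 1) k x + a j (k + 1) x = 0
  closed₁ : ∀ i j k, 1 ≤ i → 1 ≤ j → 1 ≤ k → ∀ x,
    D i (a j k) x - D j (a i k) x + D k (a i j) x = 0

/-- The coefficients of the exterior derivative of the one-form with coefficients `b`. -/
noncomputable def dd (b : ℕ → G → ℂ) (i j : ℕ) (x : G) : ℂ :=
  D i (b j) x - D j (b i) x + (if i = 0 ∧ 1 ≤ j then b (j + 1) x else 0)
    - (if j = 0 ∧ 1 ≤ i then b (i + 1) x else 0)

end Pool.Agent.H64.GW.Nil
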