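import Pool.Agent.H64.GW.Nil.Sphere
import Pool.Agent.H64.GW.Potential

/-!
# The genus zero Gromov-Witten numbers of the nilmanifold
-/

open scoped ContDiff

namespace Pool.Agent.H64.GW.Nil

/-- The genus zero Gromov-Witten numbers `I n β γ = ⟨I_{0,n;β}, 1 ⊗ γ ^ ⊗ n⟩` (`n ≥ 3`, `γ` an
even class) of the symplectic manifold `(V, σ)`; here `T = H² (V, ℂ)`, `C` is the cubic form on
`T`, and `H₂ = H₂ (V, ℤ)`. Only two of their properties are used: the numbers in a class `β ≠ 0`
vanish unless there are nonconstant pseudo-holomorphic spheres in `V` (for each tame almost complex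
structure), and the numbers for `β = 0` are those given by the constant maps. -/
structure GWSystem (σ : Form 2) {T : Type} [AddCommGroup T] [Module ℂ T]
    (C : T →ₗ[ℂ] T →ₗ[ℂ] Module.Dual ℂ T) (H₂ : Type) [AddCommGroup H₂] where
  /-- the Gromov-Witten numbers -/
  I : ℕ → H₂ → HEven T → ℂ
  /-- a nonzero invariant in a nonzero class implies the existence of pseudo-holomorphic
  spheres -/
  effective : ∀ n, 3 ≤ n → ∀ β, β ≠ 0 → ∀ γ, I n β γ ≠ 0 → ∀ J, IsTame σ J →
    ∃ u v, IsSphere J u v ∧ ∃ z, u z ≠ u 0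
  /-- the class zero: three marked points -/
  zero_three : ∀ γ, I 3 0 γ = int (cupProduct C (cupProduct C γ γ) γ)
  /-- the class zero: more than three marked points -/
  zero_of_three_lt : ∀ n, 3 < n → ∀ γ, I n 0 γ = 0

variable {σ : Form 2} {T : Type} [AddCommGroup T] [Module ℂ T]
  {C : T →ₗ[ℂ] T →ₗ[ℂ] Module.Dual ℂ T} {H₂ : Type} [AddCommGroup H₂]

/-- Without nonconstant pseudo-holomorphic spheres there are no quantum corrections. -/
def GWSystem.toNumbers (N : GWSystem σ C H₂) {J : G → (G →L[ℝ] G)} (hJ : IsTame σ J)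
    (h : ∀ u v, IsSphere J u v → ∀ z, u z = u 0) : GWNumbers C H₂ where
  I := N.I
  nonzero n hn β hβ γ := by
    by_contra hne
    obtain ⟨u, v, h1, z, hz⟩ := N.effective n hn β hβ γ hne J hJ
    exact hz (h u v h1 z)
  zero_three := N.zero_three
  zero_of_three_lt := N.zero_of_three_lt

end Pool.Agent.H64.GW.Nil
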