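import Pool.Agent.H64.GW.Nil.Frame
import Pool.Agent.H10.GWNil.Main
import Pool.Agent.H55.GWNil.Main

open scoped ContDiff
open MeasureTheory

namespace Pool.Agent.H64.GW.Nil

theorem coef_closed {α : Form 2} (hα : α ∈ Z2) : Closed (fun i j x => α x ![X i x, X j x]) :=
  Pool.Agent.H95.GWNil.coef_closed hα

theorem coef_one {β : Form 1} (hβ : β ∈ Ω 1) (i : ℕ) : (fun x => β x ![X i x]) ∈ Fn :=
  Pool.Agent.H95.GWNil.coef_one hβ i

theorem coef_extDeriv {β : Form 1} (hβ : β ∈ Ω 1) (i j : ℕ) (x : G) :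
    extDeriv β x ![X i x, X j x] = dd (fun i x => β x ![X i x]) i j x :=
  Pool.Agent.H95.GWNil.coef_extDeriv hβ i j x

theorem exists_form_one (b : ℕ → G → ℂ) (hb : ∀ i, b i ∈ Fn) (hz : ∀ i, 6 ≤ i → b i = 0) :
    ∃ β ∈ Ω 1, ∀ i x, β x ![X i x] = b i x :=
  Pool.Agent.H95.GWNil.exists_form_one b hb hz

theorem exists_form_two (c : ℕ → ℕ → ℂ) (hanti : ∀ i j, c i j = -c j i)
    (hz : ∀ i j, 6 ≤ j → c i j = 0)
    (hc : ∀ j k, 1 ≤ j → 1 ≤ k → c (j + 1) k + c j (k + 1) = 0) :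
    ∃ α ∈ Z2, ∀ i j x, α x ![X i x, X j x] = c i j :=
  Pool.Agent.H95.GWNil.exists_form_two c hanti hz hc

theorem form_two_ext {a b : G [⋀^Fin 2]→L[ℝ] ℂ} {x : G}
    (h : ∀ i j, a ![X i x, X j x] = b ![X i x, X j x]) : a = b :=
  Pool.Agent.H95.GWNil.form_two_ext h

theorem extDeriv_mem {β : Form 1} (hβ : β ∈ Ω 1) : extDeriv β ∈ Z2 :=
  Pool.Agent.H95.GWNil.extDeriv_mem hβ

theorem nomizu {a : ℕ → ℕ → G → ℂ} (ha : Closed a) : ∃ (c : ℕ → ℕ → ℂ) (b : ℕ → G → ℂ),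
    (∀ i, b i ∈ Fn) ∧ (∀ i, 6 ≤ i → b i = 0) ∧ (∀ i j, c i j = -c j i) ∧
    (∀ i j, 6 ≤ j → c i j = 0) ∧
    (∀ j k, 1 ≤ j → 1 ≤ k → c (j + 1) k + c j (k + 1) = 0) ∧
    ∀ i j x, a i j x = c i j + dd b i j x :=
  Pool.Agent.H55.GWNil.nomizu ha

theorem integral_D {f : G → ℂ} (hf : f ∈ Fn) (k : ℕ) :
    ∫ x in Set.Icc (0 : G) 1, D k f x = 0 :=
  Pool.Agent.H55.GWNil.integral_D hf k

theorem integral_exact {β : Form 1} {γ δ : Form 2} (hβ : β ∈ Ω 1) (hγ : γ ∈ Z2) (hδ : δ ∈ Z2) :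
    integral (extDeriv β) γ δ = 0 :=
  Pool.Agent.H10.GWNil.integral_exact hβ hγ hδ

theorem integral_symm₁ (α β γ : Form 2) : integral α β γ = integral β α γ :=
  Pool.Agent.H10.GWNil.integral_swap_left α β γ

theorem integral_symm₂ (α β γ : Form 2) : integral α β γ = integral α γ β :=
  Pool.Agent.H10.GWNil.integral_swap_right α β γ

theorem integral_add {α α' β γ : Form 2} (h1 : α ∈ Ω 2) (h2 : α' ∈ Ω 2) (h3 : β ∈ Ω 2)
    (h4 : γ ∈ Ω 2) : integral (α + α') β γ = integral α β γ + integral α' β γ :=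
  Pool.Agent.H10.GWNil.integral_add_left h1 h2 h3 h4

theorem integral_const {α β γ : Form 2} {a b c : ℕ → ℕ → ℂ} (hα : α ∈ Z2) (hβ : β ∈ Z2)
    (hγ : γ ∈ Z2) (ha : ∀ i j x, α x ![X i x, X j x] = a i j)
    (hb : ∀ i j x, β x ![X i x, X j x] = b i j) (hc : ∀ i j x, γ x ![X i x, X j x] = c i j) :
    integral α β γ =
      -2 * (a 0 5 * b 2 3 * c 2 3 + a 2 3 * b 0 5 * c 2 3 + a 2 3 * b 2 3 * c 0 5) :=
  Pool.Agent.H10.GWNil.integral_const hα hβ hγ ha hb hc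

end Pool.Agent.H64.GW.Nil
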