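import Pool.Agent.H64.GW.Nil.Frame
import Pool.Agent.H61.GWNil.Top

/-!
# Tame almost complex structures and pseudo-holomorphic spheres in the nilmanifold
-/

open scoped ContDiff
open MeasureTheory

namespace Pool.Agent.H64.GW.Nil

open Pool.Agent.H61.GWNil (proj)

/-- `σ` is a symplectic form on `V = Γ \ G`: a real closed nondegenerate two-form. -/
structure IsSymplectic (σ : Form 2) : Prop where
  mem : σ ∈ Z2
  real : ∀ x v, (σ x v).im = 0
  nondegenerate : ∀ x v, (∀ w, σ x ![v, w] = 0) → v = 0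

/-- `J` is a smooth almost complex structure on `V = Γ \ G` (given by its lift to `G`) which is
tamed by the symplectic form `σ`. -/
structure IsTame (σ : Form 2) (J : G → (G →L[ℝ] G)) : Prop where
  smooth : ContDiff ℝ ∞ J
  sq : ∀ x v, J x (J x v) = -v
  invariant : ∀ γ ∈ Lat, ∀ x v,
    fderiv ℝ (mul γ) x (J x v) = J (mul γ x) (fderiv ℝ (mul γ) x v)
  tame : ∀ x v, v ≠ 0 → 0 < (σ x ![v, J x v]).re

/-- The maps `u` and `v` from `ℂ` to the universal covering `G` of `V` are the lifts of the two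
halves (`z ↦ f z` and `z ↦ f (1 / z)`) of a `J`-holomorphic map `f` from the Riemann sphere
to `V`. -/
structure IsSphere (J : G → (G →L[ℝ] G)) (u v : ℂ → G) : Prop where
  smooth : ContDiff ℝ ∞ u
  smooth' : ContDiff ℝ ∞ v
  holomorphic : ∀ z, fderiv ℝ u z Complex.I = J (u z) (fderiv ℝ u z 1)
  holomorphic' : ∀ z, fderiv ℝ v z Complex.I = J (v z) (fderiv ℝ v z 1)
  glue : ∀ z, z ≠ 0 → proj (v z) = proj (u z⁻¹)

end Pool.Agent.H64.GW.Nil
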